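import Pool.Agent.KTK.Stmts

/-!
# KTK, row KAT: no periodic points, so subexponential growth
-/

set_option autoImplicit false

namespace Pool.Agent.KTK.H88

open Pool.Agent.PRT Pool.Agent.KTK
open scoped ContDiff

theorem det_comp (A B : E →L[ℝ] E) : (A.comp B).det = A.det * B.det := by
  show LinearMap.det ((A.comp B : E →L[ℝ] E) : E →ₗ[ℝ] E) =
    LinearMap.det (A : E →ₗ[ℝ] E) * LinearMap.det (B : E →ₗ[ℝ] E)
  rw [← LinearMap.det_comp]
  rfl

/-- iterates -/
theorem cs_iter {F : E → E} (hF : Cs F) (m : ℕ) : Cs (F^[m]) := by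
  induction m with
  | zero =>
    refine ⟨?_, ?_, ?_⟩
    · simpa using contDiff_id
    · intro a b z
      simp
    · intro z
      rw [Function.iterate_zero]
      have : fderiv ℝ (id : E → E) z = ContinuousLinearMap.id ℝ E := fderiv_id
      rw [this]
      show LinearMap.det ((ContinuousLinearMap.id ℝ E : E →L[ℝ] E) : E →ₗ[ℝ] E) = 1
      rw [ContinuousLinearMap.coe_id, LinearMap.det_id]
  | succ m ih =>
    refine ⟨?_, ?_, ?_⟩
    · rw [Function.iterate_succ]
      exact ih.sm.comp hF.sm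
    · intro a b z
      rw [Function.iterate_succ_apply, Function.iterate_succ_apply, hF.eqv, ih.eqv]
    · intro z
      have h1 : DifferentiableAt ℝ (F^[m]) (F z) :=
        (ih.sm.differentiable (by simp)).differentiableAt
      have h2 : DifferentiableAt ℝ F z := (hF.sm.differentiable (by simp)).differentiableAt
      have e : fderiv ℝ (F^[m + 1]) z = (fderiv ℝ (F^[m]) (F z)).comp (fderiv ℝ F z) := by
        rw [Function.iterate_succ]
        exact fderiv_comp z h1 h2
      rw [e, det_comp, ih.det, hF.det, one_mul]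

theorem kat (h1 : SubStmt) (h2 : SgmStmt) (h3 : PliStmt) (h4 : PigStmt) (h5 : AngStmt)
    (h6 : ClsStmt) : KatStmt := by
  intro F hF hNP
  by_contra hsub
  obtain ⟨m, A, D, hm, hA, hDA, hbd, hN⟩ := h1 F hF hsub (1 / 2000) 10 (by norm_num)
  have hg : Cs (F^[m]) := cs_iter hF m
  have hAD : A ≤ D := by
    obtain ⟨z, hz⟩ := hN 1
    have e1 := hbd z
    rw [Function.iterate_one] at hz
    have e2 : Real.exp (A * ((1 : ℕ) : ℝ)) = Real.exp A := by simp
    rw [e2] at hz
    have e3 : Real.exp A ≤ Real.exp D := by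
      have := Real.exp_pos D
      linarith
    exact Real.exp_le_exp.1 e3
  obtain ⟨ρ, hρ, hcl⟩ := h6 (F^[m]) D hg hbd (by linarith)
  obtain ⟨M, hM⟩ := h4 ρ hρ
  have hN1 : 1 ≤ 2 * M + 8000 := by omega
  obtain ⟨z, hz⟩ := hN (2 * M + 8000)
  obtain ⟨x, e, f, α, β, hS, hsum⟩ := h2 (F^[m]) A D (2 * M + 8000) z hg hbd (by linarith) hN1 hz
  have hang := h5 (F^[m]) D (2 * M + 8000) x e f α β hg hbd (by linarith) hS
  have hNr : (8000 : ℝ) ≤ ((2 * M + 8000 : ℕ) : ℝ) := by
    exact_mod_cast (by omega : 8000 ≤ 2 * M + 8000)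
  have hle : ∑ i ∈ Finset.range (2 * M + 8000), df D α β i ≤
      D / 100 * ((2 * M + 8000 : ℕ) : ℝ) / 4 := by
    refine hsum.trans ?_
    set r : ℝ := ((2 * M + 8000 : ℕ) : ℝ) with hr
    have a1 : 2 * (D - A) * r ≤ D / 1000 * r := by
      have : 2 * (D - A) ≤ D / 1000 := by linarith
      exact mul_le_mul_of_nonneg_right this (by linarith)
    have a2 : 10 * 8000 ≤ D * r := by
      have : (10 : ℝ) ≤ D := by linarith
      nlinarith
    nlinarith
  obtain ⟨T, hT, hTj⟩ := h3 (df D α β) (D / 100) (2 * M + 8000) (by linarith) hang.1 hle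
  obtain ⟨j, hj, j', hj', hjj, ⟨a, b, hab⟩, he, hf⟩ := hM T x e f (by omega) (fun i hi =>
    ⟨hS.e1 i (hTj i hi).1.le, hS.f1 i (hTj i hi).1.le⟩)
  obtain ⟨y, hy⟩ := hcl (2 * M + 8000) x e f α β hS j j' hjj (hTj j' hj').1 (hTj j hj).2
    (hTj j' hj').2 a b hab he hf
  rw [← Function.iterate_mul] at hy
  exact hNP (m * (j' - j)) a b y (Nat.mul_pos hm (by omega)) hy

end Pool.Agent.KTK.H88
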