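import Pool.Agent.KTK.Stmts2

/-!
# KTK, row NDL: the distance to the integer vectors
-/

set_option autoImplicit false

namespace Pool.Agent.KTK.H88

open Pool.Agent.PRT Pool.Agent.KTK

theorem norm_sub_iv (v : E) (a b : ℤ) :
    ‖v - iv a b‖ = max |v.1 - (a : ℝ)| |v.2 - (b : ℝ)| := by
  rw [Prod.norm_def]
  rfl

theorem ndl : NdlStmt := by
  intro v
  refine ⟨fun a b => ?_, ?_, norm_nonneg _⟩
  · unfold nd
    rw [norm_sub_iv, norm_sub_iv]
    exact max_le_max (round_le v.1 a) (round_le v.2 b)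
  · unfold nd
    rw [norm_sub_iv]
    exact max_le (abs_sub_round v.1) (abs_sub_round v.2)

end Pool.Agent.KTK.H88
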